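import Pool.Agent.Helper38.WY.Goals9
import Pool.Agent.Helper91.PPB.BNTV2

/-!
# Project WY (MP_fc6b1e_nt), packet Y_NT3: the conditions `NTV3`, `SDual`.
-/

set_option autoImplicit false

namespace Pool.Agent.Helper62.WY

open NumberField Polynomial Module IsDedekindDomain
open _root_.Pool.Agent.Helper51.SigLeo
open _root_.Pool.Agent.Helper51.RP _root_.Pool.Agent.Helper42.RD
open _root_.Pool.Agent.Helper42.PP (nsig)
open _root_.Pool.Agent.Helper42.PP1 (SitW)
open _root_.Pool.Agent.Helper22.PP (nsig_eq nsig_mul nsig_one nsig_ne exists_n)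
open _root_.Pool.Agent.Helper22.RP (io toZMod_surj eval_lt eval_le)
open _root_.Pool.Agent.Helper76.PP (root_pow_eq_one)
open _root_.Pool.Agent.Helper91.PPB
open _root_.Pool.Agent.Helper38.WY (NTV3 SDual)

/-- a polynomial with small value at `ζ` is divisible by `P` modulo `p` -/
theorem dvd_of_small {p : ℕ} [Fact p.Prime] {ζ : ℂ_[p]} {Φ : ℤ_[p][X]} {P : (ZMod p)[X]}
    (hz : ‖ζ‖ ≤ 1) (hroot : eval₂ (io p ℂ_[p]) ζ Φ = 0) (hmap : P = Φ.map PadicInt.toZMod)
    (hirr : Irreducible P) (F : ℤ_[p][X]) (hF : ‖eval₂ (io p ℂ_[p]) ζ F‖ < 1) :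
    P ∣ F.map PadicInt.toZMod := by
  by_contra hnd
  have hcop : IsCoprime P (F.map PadicInt.toZMod) := by
    rcases EuclideanDomain.dvd_or_coprime P (F.map PadicInt.toZMod) hirr with h | h
    · exact absurd h hnd
    · exact h
  obtain ⟨b, a, hab⟩ := hcop
  obtain ⟨B, rfl⟩ := Polynomial.map_surjective _ toZMod_surj b
  obtain ⟨A, rfl⟩ := Polynomial.map_surjective _ toZMod_surj a
  have h1 : (B * Φ + A * F - 1).map PadicInt.toZMod = 0 := by
    rw [Polynomial.map_sub, Polynomial.map_add, Polynomial.map_mul, Polynomial.map_mul, ← hmap,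
      Polynomial.map_one, hab, sub_self]
  have h2 := eval_lt (k := ℂ_[p]) (B * Φ + A * F - 1) hz h1
  rw [eval₂_sub, eval₂_add, eval₂_mul, eval₂_mul, hroot, mul_zero, zero_add, eval₂_one] at h2
  have h3 : ‖eval₂ (io p ℂ_[p]) ζ A‖ ≤ 1 :=
    eval_le A hz 1 zero_le_one fun n => PadicInt.norm_le_one _
  have h4 : ‖eval₂ (io p ℂ_[p]) ζ A * eval₂ (io p ℂ_[p]) ζ F‖ < 1 := by
    rw [norm_mul]
    calc ‖eval₂ (io p ℂ_[p]) ζ A‖ * ‖eval₂ (io p ℂ_[p]) ζ F‖
        ≤ 1 * ‖eval₂ (io p ℂ_[p]) ζ F‖ := mul_le_mul_of_nonneg_right h3 (norm_nonneg _)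
      _ < 1 := by rwa [one_mul]
  have h5 : ‖(1 : ℂ_[p])‖ < 1 := by
    have e1 : (1 : ℂ_[p]) = eval₂ (io p ℂ_[p]) ζ A * eval₂ (io p ℂ_[p]) ζ F -
        (eval₂ (io p ℂ_[p]) ζ A * eval₂ (io p ℂ_[p]) ζ F - 1) := by ring
    rw [e1, sub_eq_add_neg]
    refine (IsUltrametricDist.norm_add_le_max _ _).trans_lt (max_lt h4 ?_)
    rwa [norm_neg]
  rw [norm_one] at h5
  exact lt_irrefl _ h5

section core

variable {p : ℕ} {κ G : Type} [Field κ] [Group G] (f : ℕ) (lam nu : G →* κ)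

/-- The family of the homomorphisms. -/
noncomputable def fam3' (p : ℕ) : Fin f ⊕ (Unit ⊕ Unit) → G →* κ
  | .inl k => (powMonoidHom (p ^ (k : ℕ))).comp (invMonoidHom.comp lam)
  | .inr (.inl _) => invMonoidHom.comp nu
  | .inr (.inr _) => 1

theorem fam31 (k : Fin f) (g : G) : fam3' f lam nu p (.inl k) g = ((lam g)⁻¹) ^ p ^ (k : ℕ) := rfl

theorem fam33 (u : Unit) (g : G) : fam3' f lam nu p (.inr (.inl u)) g = (nu g)⁻¹ := rfl

theorem fam34 (u : Unit) (g : G) : fam3' f lam nu p (.inr (.inr u)) g = 1 := rfl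

theorem core3 (hf0 : 0 < f) (h1 : ∃ g, lam g ≠ 1) (h2 : ∃ g, lam g ≠ nu g)
    (h4 : ∀ k, 0 < k → k < f → ∃ g, lam g ^ p ^ k ≠ lam g) (a γ γ' : κ)
    (h : ∀ g, ∑ k ∈ Finset.range f, (a * (lam g)⁻¹) ^ p ^ k + γ * (nu g)⁻¹ + γ' = 0) :
    a = 0 := by
  classical
  set c : Fin f ⊕ (Unit ⊕ Unit) → κ := Sum.elim (fun k => a ^ p ^ (k : ℕ))
    (Sum.elim (fun _ => γ) fun _ => γ') with hc
  have hsum : ∀ g, ∑ i, c i * fam3' f lam nu p i g = 0 := by
    intro g
    rw [← h g, Fintype.sum_sum_type, Fintype.sum_sum_type]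
    simp only [hc, Sum.elim_inl, Sum.elim_inr, fam31, fam33, fam34, Finset.univ_unique,
      Finset.sum_singleton, mul_one]
    rw [Finset.sum_range]
    simp only [mul_pow]
    rw [← add_assoc]
  obtain ⟨g1, hg1⟩ := h1
  obtain ⟨g2, hg2⟩ := h2
  have h5 := coeff_zero (fam3' f lam nu p) c hsum (.inl ⟨0, hf0⟩) (by
    rintro (k | u | u) hne he
    · have hk : 0 < (k : ℕ) := by
        rcases Nat.eq_zero_or_pos (k : ℕ) with h0 | h0
        · exact absurd (congrArg Sum.inl (Fin.ext h0)) hne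
        · exact h0
      obtain ⟨g, hg⟩ := h4 k hk k.2
      have h6 := DFunLike.congr_fun he g
      rw [fam31, fam31, pow_zero, pow_one, inv_pow] at h6
      exact hg (inv_injective h6)
    · have h6 := DFunLike.congr_fun he g2
      rw [fam33, fam31, pow_zero, pow_one] at h6
      exact hg2 (inv_injective h6).symm
    · have h6 := DFunLike.congr_fun he g1
      rw [fam34, fam31, pow_zero, pow_one] at h6
      exact hg1 (by rw [← inv_inv (lam g1), ← h6, inv_one]))
  simpa [hc] using h5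

end core

theorem ntv3_gen (p : ℕ) [Fact p.Prime] (K M K₁ M₁ : Type) [Field K] [NumberField K] [Field M]
    [NumberField M] [Field K₁] [NumberField K₁] [Field M₁] [NumberField M₁] [Algebra K M]
    [Algebra K K₁] [Algebra K M₁] [Algebra M M₁] [Algebra K₁ M₁] (ε : K₁) (δ : M ≃ₐ[K] M)
    (P : (ZMod p)[X]) (hW : SitW p K M K₁ M₁ ε δ P) (hcop : AdjoinRoot.root P ≠ 1)
    (h2 : ∃ (g : M₁ ≃ₐ[K] M₁) (i : ℕ) (σ : K₁ ≃ₐ[K] K₁),
      (∀ y : M, g (algebraMap M M₁ y) = algebraMap M M₁ ((δ ^ i) y)) ∧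
      (∀ y : K₁, g (algebraMap K₁ M₁ y) = algebraMap K₁ M₁ (σ y)) ∧
      AdjoinRoot.root P ^ i ≠ algebraMap (ZMod p) (AdjoinRoot P) (nsig p ε σ))
    : NTV3 p M₁ ε δ P := by
  have hp : p.Prime := Fact.out
  have : IsScalarTower K M M₁ := hW.st1
  have : IsScalarTower K K₁ M₁ := hW.st2
  have : IsGalois K M := hW.gM
  have : IsGalois K K₁ := hW.gK
  have : IsGalois K M₁ := hW.gMK
  have : Fact (Irreducible P) := ⟨hW.irr⟩
  have hfin : Finite (AdjoinRoot P) := finite_adjoin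
  have hmf : Module.Finite (ZMod p) (AdjoinRoot P) :=
    (AdjoinRoot.powerBasis hW.irr.ne_zero).finite
  set m := finrank K M with hm
  have hm0 : 0 < m := finrank_pos
  set t : AdjoinRoot P := AdjoinRoot.root P with ht
  have htm : t ^ m = 1 := root_pow_eq_one hW.dvdP
  have ht0 : t ≠ 0 := by
    intro h
    rw [h, zero_pow hm0.ne'] at htm
    exact zero_ne_one htm
  have hcard : Nat.card (M ≃ₐ[K] M) = m := IsGalois.card_aut_eq_finrank K M
  have htop : Subgroup.zpowers δ = ⊤ := by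
    apply Subgroup.eq_top_of_card_eq
    rw [Nat.card_zpowers, hW.ord, hcard]
  have hgen : ∀ x : M ≃ₐ[K] M, x ∈ Subgroup.zpowers δ := fun x => by
    rw [htop]; exact Subgroup.mem_top _
  -- the homomorphism `lam`
  set tu : (AdjoinRoot P)ˣ := Units.mk0 t ht0 with htu
  have htu1 : orderOf tu ∣ orderOf δ := by
    rw [hW.ord, orderOf_dvd_iff_pow_eq_one]
    apply Units.ext
    rw [Units.val_pow_eq_pow_val]
    exact htm
  set lam₀ : (M ≃ₐ[K] M) →* (AdjoinRoot P)ˣ := monoidHomOfForallMemZpowers hgen htu1 with hlam₀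
  have hlam₀' : ∀ i : ℕ, ((lam₀ (δ ^ i) : (AdjoinRoot P)ˣ) : AdjoinRoot P) = t ^ i := by
    intro i
    rw [map_pow, hlam₀, monoidHomOfForallMemZpowers_apply_gen, Units.val_pow_eq_pow_val]
    rfl
  set lam : (M₁ ≃ₐ[K] M₁) →* AdjoinRoot P :=
    (Units.coeHom _).comp (lam₀.comp (AlgEquiv.restrictNormalHom M)) with hlam
  have hresM : ∀ (g : M₁ ≃ₐ[K] M₁) (y : M),
      g (algebraMap M M₁ y) = algebraMap M M₁ (AlgEquiv.restrictNormalHom M g y) := fun g y ↦
    (AlgEquiv.restrictNormal_commutes g M y).symm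
  have hresK : ∀ (g : M₁ ≃ₐ[K] M₁) (y : K₁),
      g (algebraMap K₁ M₁ y) = algebraMap K₁ M₁ (AlgEquiv.restrictNormalHom K₁ g y) := fun g y ↦
    (AlgEquiv.restrictNormal_commutes g K₁ y).symm
  have hlam_eq : ∀ (g : M₁ ≃ₐ[K] M₁) (i : ℕ),
      (∀ y : M, g (algebraMap M M₁ y) = algebraMap M M₁ ((δ ^ i) y)) → lam g = t ^ i := by
    intro g i hg
    have h5 : AlgEquiv.restrictNormalHom M g = δ ^ i := by
      ext y
      apply (algebraMap M M₁).injective
      rw [← hresM, hg]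
    show ((lam₀ (AlgEquiv.restrictNormalHom M g) : (AdjoinRoot P)ˣ) : AdjoinRoot P) = _
    rw [h5, hlam₀']
  -- the homomorphism `nu`
  set nu : (M₁ ≃ₐ[K] M₁) →* AdjoinRoot P :=
    { toFun := fun g => algebraMap (ZMod p) (AdjoinRoot P)
        (nsig p ε (AlgEquiv.restrictNormalHom K₁ g))
      map_one' := by rw [map_one, nsig_one hW.prim, map_one]
      map_mul' := fun g g' => by rw [map_mul, nsig_mul hW.prim, map_mul] } with hnu
  have hnu' : ∀ g, nu g = algebraMap (ZMod p) (AdjoinRoot P)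
      (nsig p ε (AlgEquiv.restrictNormalHom K₁ g)) := fun _ => rfl
  have hnu_eq : ∀ (g : M₁ ≃ₐ[K] M₁) (σ : K₁ ≃ₐ[K] K₁),
      (∀ y : K₁, g (algebraMap K₁ M₁ y) = algebraMap K₁ M₁ (σ y)) →
      nu g = algebraMap (ZMod p) (AdjoinRoot P) (nsig p ε σ) := by
    intro g σ hg
    have h5 : AlgEquiv.restrictNormalHom K₁ g = σ := by
      ext y
      apply (algebraMap K₁ M₁).injective
      rw [← hresK, hg]
    rw [hnu', h5]
  -- surjectivity
  obtain ⟨g₁, hg₁⟩ := AlgEquiv.restrictNormalHom_surjective (F := K) (K₁ := M) M₁ δ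
  have hlg₁ : lam g₁ = t := by
    have := hlam_eq g₁ 1 (fun y => by rw [hresM, hg₁, pow_one])
    rwa [pow_one] at this
  intro tr htr η γ γ' hη
  by_contra hcon
  push Not at hcon
  obtain ⟨β, hβ, htrace⟩ := exists_beta tr htr
  have hmain := core3 (p := p) (finrank (ZMod p) (AdjoinRoot P)) lam nu finrank_pos
    ⟨g₁, by rw [hlg₁]; exact hcop⟩
    (by
      obtain ⟨g, i, σ, ha, hb, hc⟩ := h2
      exact ⟨g, by rw [hlam_eq g i ha, hnu_eq g σ hb]; exact hc⟩)
    (fun k hk hkf => ⟨g₁, by rw [hlg₁]; exact root_pow_ne hk hkf⟩)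
    (β * η) (algebraMap (ZMod p) (AdjoinRoot P) γ)
    (algebraMap (ZMod p) (AdjoinRoot P) γ') (by
      intro g
      obtain ⟨i₀, hi₀⟩ : ∃ i : ℕ, δ ^ i = AlgEquiv.restrictNormalHom M g := by
        have h5 := hgen (AlgEquiv.restrictNormalHom M g)
        rw [← mem_powers_iff_mem_zpowers] at h5
        exact h5
      set i := i₀ % m with hi
      have hi' : δ ^ i = AlgEquiv.restrictNormalHom M g := by
        have := pow_mod_orderOf δ i₀
        rw [hW.ord] at this
        rw [hi, this, hi₀]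
      have him : i < m := Nat.mod_lt _ hm0
      have ha : ∀ y : M, g (algebraMap M M₁ y) = algebraMap M M₁ ((δ ^ i) y) := fun y => by
        rw [hresM, hi']
      have h5 := hcon g i (AlgEquiv.restrictNormalHom K₁ g) him ha (hresK g)
      have hh : ∀ a b d e : ZMod p, a + d * b⁻¹ + e = 0 →
          algebraMap (ZMod p) (AdjoinRoot P) a + algebraMap (ZMod p) (AdjoinRoot P) d *
            (algebraMap (ZMod p) (AdjoinRoot P) b)⁻¹ + algebraMap (ZMod p) (AdjoinRoot P) e =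
          0 := by
        intro a b d e h
        rw [← map_inv₀, ← map_mul, ← map_add, ← map_add, h, map_zero]
      have h6 := hh _ _ _ _ h5
      rw [htrace] at h6
      have h7 : lam g = t ^ i := hlam_eq g i ha
      have h8 : t ^ (m - i) = (lam g)⁻¹ := by
        symm
        rw [h7]
        apply inv_eq_of_mul_eq_one_right
        rw [← pow_add, Nat.add_sub_cancel' him.le, htm]
      rw [h8, ← hnu'] at h6
      rw [← h6]
      simp only [mul_assoc])
  exact hη ((mul_eq_zero.1 hmain).resolve_left hβ)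

/-- PACKET Y_NT3 -/
theorem y_nt3 : _root_.Pool.Agent.Helper38.WY.Y_NT3 := by
  intro p hpF K _ _ M K₁ M₁ _ _ _ _ _ _ hM hK₁ ε δ P hW χ₀ Φ hord hPhi hg
  have hp : p.Prime := hpF.out
  have hgK : IsGalois K K₁ := hW.gK
  have hgMK : IsGalois K M₁ := hW.gMK
  have hPF : Fact (Irreducible P) := ⟨hW.irr⟩
  have hcard : Nat.card (M ≃ₐ[K] M) = finrank K M := IsGalois.card_aut_eq_finrank K M
  have htop : Subgroup.zpowers δ = ⊤ := by
    apply Subgroup.eq_top_of_card_eq
    rw [Nat.card_zpowers, hord, hcard]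
  have hζ : ‖((χ₀ δ : ℂ_[p]ˣ) : ℂ_[p])‖ = 1 := by
    have hm : finrank K M ≠ 0 := by
      have := hPhi.one_lt
      omega
    have h1 : ‖((χ₀ δ : ℂ_[p]ˣ) : ℂ_[p])‖ ^ finrank K M = 1 := by
      rw [← norm_pow, hPhi.prim.pow_eq_one, norm_one]
    exact (pow_eq_one_iff_of_nonneg (norm_nonneg _) hm).1 h1
  have hkey : ∀ (g : AlgebraicClosure K ≃ₐ[K] AlgebraicClosure K) (r e : ℕ),
      (∀ ξ : AlgebraicClosure K, ξ ^ p = 1 → g ξ = ξ ^ r) →
      ‖((χ₀ (AlgEquiv.restrictNormalHom M g) : ℂ_[p]ˣ) : ℂ_[p]) ^ e - r‖ = 1 →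
      ∃ (g' : M₁ ≃ₐ[K] M₁) (i : ℕ) (σ : K₁ ≃ₐ[K] K₁),
        (∀ y : M, g' (algebraMap M M₁ y) = algebraMap M M₁ ((δ ^ i) y)) ∧
        (∀ y : K₁, g' (algebraMap K₁ M₁ y) = algebraMap K₁ M₁ (σ y)) ∧
        (AdjoinRoot.root P ^ i) ^ e ≠ algebraMap (ZMod p) (AdjoinRoot P) (nsig p ε σ) := by
    intro g r e hgr hnorm
    obtain ⟨t, ht⟩ : ∃ t : ℕ, δ ^ t = AlgEquiv.restrictNormalHom M g := by
      have h1 : AlgEquiv.restrictNormalHom M g ∈ Subgroup.zpowers δ := by
        rw [htop]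
        exact Subgroup.mem_top _
      rw [← mem_powers_iff_mem_zpowers] at h1
      exact h1
    have hndvd : ¬ P ∣ (X ^ t) ^ e - C ((r : ZMod p)) := by
      intro hdvd
      have h1 := Pool.Agent.Helper58.PPB.small hζ.le hPhi.root hPhi.map
        ((X ^ t) ^ e - C (r : ℤ_[p])) (by
          rw [Polynomial.map_sub, Polynomial.map_pow, Polynomial.map_pow, map_X, map_C,
            map_natCast]
          exact hdvd)
      rw [eval₂_sub, eval₂_pow, eval₂_pow, eval₂_X, eval₂_C, map_natCast] at h1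
      rw [← ht, map_pow, Units.val_pow_eq_pow_val] at hnorm
      rw [hnorm] at h1
      exact lt_irrefl _ h1
    have hres : ∀ (N : IntermediateField K (AlgebraicClosure K)) [Normal K N] (y : N),
        ((AlgEquiv.restrictNormalHom N g y : N) : AlgebraicClosure K) =
          g (y : AlgebraicClosure K) := fun N _ y ↦ AlgEquiv.restrictNormal_commutes g N y
    refine ⟨AlgEquiv.restrictNormalHom M₁ g, t, AlgEquiv.restrictNormalHom K₁ g, ?_, ?_, ?_⟩
    · intro y
      apply Subtype.ext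
      rw [hres M₁, hM, hM, ht, hres M]
    · intro y
      apply Subtype.ext
      rw [hres M₁, hK₁, hK₁, hres K₁]
    · have hε : AlgEquiv.restrictNormalHom K₁ g ε = ε ^ r := by
        apply Subtype.ext
        rw [hres K₁, hgr _ (by
          have := congrArg (fun z : K₁ ↦ (z : AlgebraicClosure K)) hW.prim.pow_eq_one
          simpa using this)]
        rfl
      rw [nsig_eq hW.prim hε]
      intro h
      apply hndvd
      rw [← AdjoinRoot.mk_eq_zero, map_sub, map_pow, map_pow, AdjoinRoot.mk_X, h]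
      have : AdjoinRoot.mk P (C (r : ZMod p)) = algebraMap (ZMod p) (AdjoinRoot P) (r : ZMod p) :=
        rfl
      rw [this, sub_self]
  refine ⟨ntv3_gen p K M K₁ M₁ ε δ P hW ?_ ?_, ?_⟩
  · intro h1
    have h2 : IsCoprime P (X ^ 1 - 1) := hPhi.cop 1 one_pos hPhi.one_lt (one_dvd _)
    rw [pow_one] at h2
    have h3 : P ∣ X - 1 := by
      rw [← AdjoinRoot.mk_eq_zero, map_sub, map_one, AdjoinRoot.mk_X, h1, sub_self]
    exact hW.irr.not_isUnit (h2.isUnit_of_dvd' dvd_rfl h3)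
  · obtain ⟨g, r, hgr, hnorm⟩ := hg
    obtain ⟨g', i, σ, ha, hb, hc⟩ := hkey g r 1 hgr (by rwa [pow_one])
    exact ⟨g', i, σ, ha, hb, by rwa [pow_one] at hc⟩
  · -- the condition `SDual`
    intro j hj g i σ hgM hgK₁
    have hres : ∀ (N : IntermediateField K (AlgebraicClosure K)) [Normal K N]
        (g : AlgebraicClosure K ≃ₐ[K] AlgebraicClosure K) (y : N),
        ((AlgEquiv.restrictNormalHom N g y : N) : AlgebraicClosure K) =
          g (y : AlgebraicClosure K) := fun N _ g y ↦ AlgEquiv.restrictNormal_commutes g N y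
    obtain ⟨gt, hgt⟩ := AlgEquiv.restrictNormalHom_surjective (F := K) (K₁ := M₁)
      (AlgebraicClosure K) g
    obtain ⟨r, hr⟩ := exists_n hW.prim σ
    have hprim : IsPrimitiveRoot ((ε : K₁) : AlgebraicClosure K) p :=
      hW.prim.map_of_injective (f := K₁.val) K₁.val.injective
    have hgε : gt ((ε : K₁) : AlgebraicClosure K) = ((ε : K₁) : AlgebraicClosure K) ^ r := by
      have h1 := hres M₁ gt (algebraMap K₁ M₁ ε)
      rw [hgt, hgK₁, hK₁, hK₁, hr] at h1
      rw [← h1]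
      rfl
    have hgr : ∀ ξ : AlgebraicClosure K, ξ ^ p = 1 → gt ξ = ξ ^ r := by
      intro ξ hξ
      obtain ⟨l, -, rfl⟩ := hprim.eq_pow_of_pow_eq_one hξ
      rw [map_pow, hgε, ← pow_mul, ← pow_mul, mul_comm]
    have hres2 : AlgEquiv.restrictNormalHom M gt = δ ^ i := by
      ext y
      have h1 := hres M₁ gt (algebraMap M M₁ y)
      rw [hgt, hgM, hM, hM] at h1
      rw [hres M, ← h1]
    have hlt := hj gt r hgr
    rw [hres2, map_pow, Units.val_pow_eq_pow_val] at hlt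
    have hdvd : P ∣ ((X ^ i) ^ (1 + p ^ j) - C (r : ℤ_[p]) : ℤ_[p][X]).map PadicInt.toZMod := by
      refine dvd_of_small hζ.le hPhi.root hPhi.map hW.irr _ ?_
      rw [eval₂_sub, eval₂_pow, eval₂_pow, eval₂_X, eval₂_C, map_natCast]
      exact hlt
    rw [nsig_eq hW.prim hr]
    rw [Polynomial.map_sub, Polynomial.map_pow, Polynomial.map_pow, map_X, map_C, map_natCast,
      ← AdjoinRoot.mk_eq_zero, map_sub, map_pow, map_pow, AdjoinRoot.mk_X, sub_eq_zero] at hdvd
    rw [hdvd]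
    rfl

end Pool.Agent.Helper62.WY
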