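import Pool.Agent.Helper38.WY.Goals4
import Pool.Agent.Helper12.PW.WHIL

/-!
# Project WY (MP_fc6b1e_nt), packet Z_HIL: from units to Selmer elements, without condition above `p`.
-/

set_option autoImplicit false

namespace Pool.Agent.Helper62.WY

open NumberField Polynomial Module IsDedekindDomain
open Pool.Agent.Helper51.SigLeo
open Pool.Agent.Helper51.RP Pool.Agent.Helper42.RD Pool.Agent.Helper79.RP Pool.Agent.Helper42.PW
open Pool.Agent.Helper38.WY

/-- PACKET Z_HIL -/
theorem z_hil (h0 : Z_LIM) (h1 : W_RM1) (h2 : N_EVL) (h3 : N_ALG) :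
    Pool.Agent.Helper38.WY.Z_HIL := by
  intro p hpf L K M H M₁ H₁ _ _ _ _ _ _ _ _ _ _ _ _ _ _ _ _ _ _ _
    m δ γ δ' γ₁ T ε a s P hP hd u hu1 hu2 hu3 y x hy hx hpol
  have h5 : S_TAM := Pool.Agent.Helper20.RP.s_tam
  have hp := hpf.out
  have hprod : ∀ z : H, ∏ j ∈ Finset.range p, (γ₁ ^ j) (algebraMap H H₁ z) =
      algebraMap H H₁ (∏ j ∈ Finset.range p, (γ ^ j) z) := by
    intro z
    rw [map_prod]
    exact Finset.prod_congr rfl fun j _ => map_pow_ext hd.ext j z
  refine ⟨hpol, ?_, ?_⟩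
  · intro W
    have hy1 : algebraMap H H₁ (y : H) ≠ 0 := (_root_.map_ne_zero _).2 y.ne_zero
    set y₁ : H₁ˣ := Units.mk0 (algebraMap H H₁ (y : H)) hy1 with hy₁
    have hx1 : algebraMap M₁ H₁ (algebraMap M M₁ (x : M)) =
        ∏ j ∈ Finset.range p, (γ₁ ^ j) (y₁ : H₁) := by
      rw [hy₁, Units.val_mk0, hprod, ← hx, hd.compat]
    have hrm := h1 p M₁ H₁ ε a s γ₁ hd.prim hd.ne hd.degH₁ hd.pow hd.γs y₁
        (Units.map (RingOfIntegers.mapRingHom (algebraMap H H₁)) (u 0))
        (algebraMap M M₁ (x : M)) (by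
          rw [hy₁, Units.val_mk0, hd.ext, hy, map_mul]
          rfl) hx1 W
    refine ⟨fun hWp => ⟨fun h => hrm.1 hWp h, fun h => ?_⟩, fun _ => ⟨?_, fun h => hrm.2 h⟩⟩
    · exact h5 p M₁ H₁ ε a s γ₁ hd.prim hd.ne hd.degH₁ hd.pow
        hd.γs y₁ (algebraMap M M₁ (x : M)) hx1 W h
    · obtain ⟨z, hz⟩ := Pool.Agent.Helper12.PW.nf_norm h2 h3 ε a s γ₁ hd.prim hd.ne hd.degH₁
        hd.pow hd.γs (y₁ : H₁) y₁.ne_zero (algebraMap M M₁ (x : M)) hx1
      refine ⟨z, ?_, ?_⟩
      · rw [hz, sub_self, map_zero]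
        exact zero_lt_one
      · rw [hz, sub_self, map_zero]
        exact zero_le
  · -- the condition at the places of `T`
    intro τ hτ
    obtain ⟨g₀, hg₀⟩ : ∃ g₀ : H ≃ₐ[M] H, ∀ z, g₀ z = γ z :=
      ⟨AlgEquiv.ofRingEquiv (f := (γ : H ≃+* H)) hd.γM, fun z => rfl⟩
    have hg₀p : ∀ (j : ℕ) (z : H), (g₀ ^ j) z = (γ ^ j) z := by
      intro j
      induction j with
      | zero => intro z; rfl
      | succ j ih =>
        intro z
        rw [pow_succ', pow_succ', AlgEquiv.mul_apply, AlgEquiv.mul_apply, ih, hg₀]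
    have hord : orderOf g₀ = p := by
      rw [← hd.γo]
      apply Nat.dvd_antisymm
      · rw [orderOf_dvd_iff_pow_eq_one]
        ext z
        rw [hg₀p, pow_orderOf_eq_one]
        rfl
      · rw [orderOf_dvd_iff_pow_eq_one]
        ext z
        rw [← hg₀p, pow_orderOf_eq_one]
        rfl
    have hhom : ∀ w : Additive (𝓞 H)ˣ, unitsHom g₀ w = unitsHom γ w := by
      intro w
      apply Additive.toMul.injective
      apply Units.ext
      apply RingOfIntegers.ext
      exact hg₀ _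
    have hiter : ∀ (l : ℕ) (w : Additive (𝓞 H)ˣ),
        (unitsHom g₀)^[l] w = (unitsHom γ)^[l] w := by
      intro l
      induction l with
      | zero => intro w; rfl
      | succ l ih => intro w; rw [Function.iterate_succ_apply', Function.iterate_succ_apply', ih,
          hhom]
    refine h0 p L M H M₁ H₁ g₀ γ₁ ε a s hd.compat hd.degH₁ hd.prim hd.ne hd.pow hd.γs ?_ hord τ u
      ?_ ?_ y x ?_ ?_
    · intro z
      rw [hd.ext, hg₀]
    · intro N
      obtain ⟨b, hb1, hb2⟩ := hu2 N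
      refine ⟨b, ?_, ?_⟩
      · rw [← hb1]
        exact Finset.prod_congr rfl fun j _ => hg₀p j _
      · rw [hg₀, hb2]
    · intro N l τ' hτ'
      rw [hiter]
      refine hu3 N l τ' ?_
      have hτ2 : τ.comp (algebraMap K M₁) ∈ T := hτ
      have e1 : (τ'.comp (algebraMap M H)).comp (algebraMap K M) = τ.comp (algebraMap K M₁) := by
        rw [hτ', RingHom.comp_assoc, ← IsScalarTower.algebraMap_eq]
      show (τ'.comp (algebraMap M H)).comp (algebraMap K M) ∈ T
      rw [e1]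
      exact hτ2
    · rw [hg₀, hy]
    · rw [hx]
      exact Finset.prod_congr rfl fun j _ => (hg₀p j _).symm

end Pool.Agent.Helper62.WY
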